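import Pool.Agent.Lib.MP_1ed8ce_co.SS2.Sound
import Pool.Agent.Lib.MP_1ed8ce_co.SS.Main

/-! The inequality for `k = 2`. -/

namespace Pool.Agent.Lib.MP_1ed8ce_co.SS2

open Finset Pool.Agent.Lib.MP_1ed8ce_co.SS
open scoped Classical

variable {V : Type} [Fintype V] [DecidableEq V] {G : SimpleGraph V} {H : Finset V}
  {col : V → Bool}

/-- What the core forces on short paths. -/
structure Loc (G : SimpleGraph V) (H : Finset V) (col : V → Bool) : Prop where
  free : ¬ Cyc G univ 5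
  h1 : ∀ x ∈ H, ∀ y ∈ H, G.Adj x y → col x ≠ col y
  h2 : ∀ u, u ∉ H → ∀ x ∈ H, ∀ y ∈ H, G.Adj u x → G.Adj u y → col x = col y
  h3 : ∀ u, u ∉ H → ∀ v, v ∉ H → G.Adj u v → ∀ x ∈ H, ∀ y ∈ H, G.Adj u x → G.Adj v y →
    col x = col y → x = y

/-- The colouring of `H` extends to `O` with few monochromatic edges. -/
def Ok (G : SimpleGraph V) (H : Finset V) (col : V → Bool) (O : Finset V) (m : ℕ) : Prop :=
  ∃ c : V → Bool, (∀ x ∈ H, c x = col x) ∧ M2 G (H ∪ O) c ≤ m

theorem loc_of_core (hc : Core G 2 H col) (hf : ¬ Cyc G univ 5) : Loc G H col := by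
  refine ⟨hf, fun x hx y hy ha e => ?_, fun u hu x hx y hy a1 a2 => ?_,
    fun u hu v hv a x hx y hy a1 a2 e => ?_⟩
  · have := wr_ge hc hf (wrL_edge hx hy ha e)
    omega
  · by_contra e
    have := wr_ge hc hf (wrL_two hx hy hu a1 a2 e)
    omega
  · by_contra hne
    have hxv : x ≠ v := fun h => hv (h ▸ hx)
    have huy : u ≠ y := fun h => hu (h ▸ hy)
    have hw : WrL G H col 3 := by
      refine ⟨{x, u, v, y}, x, y, hx, hy, hne, link_three (b := u) (c := v) (by simp) (by simp)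
        (by simp) (by simp) a1.symm a a2 hxv hne huy, ?_, ?_⟩
      · intro z hz hzH
        simp only [mem_insert, mem_singleton] at hz
        rcases hz with h | h | h | h
        · exact Or.inl h
        · exact absurd (h ▸ hzH) hu
        · exact absurd (h ▸ hzH) hv
        · exact Or.inr h
      · exact ⟨fun _ => by decide, fun _ => e⟩
    have := wr_ge hc hf hw
    omega

theorem cyc5 {a b c d e : V} (hab : G.Adj a b) (hbc : G.Adj b c) (hcd : G.Adj c d)
    (hde : G.Adj d e) (hea : G.Adj e a) (hac : a ≠ c) (had : a ≠ d) (hbd : b ≠ d) (hbe : b ≠ e)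
    (hce : c ≠ e) : Cyc G univ 5 :=
  (link_four (mem_univ _) (mem_univ _) (mem_univ _) (mem_univ _) (mem_univ _) hab hbc hcd hde
    hac had hbd hea.ne.symm hbe hce).close (by norm_num) hea

theorem Loc.label (h : Loc G H col) (v : V) : ∃ x, x ≤ 4 ∧ (v ∉ H → (x = 0 ↔ deg G H v = 0) ∧
    (x ≤ 2 ↔ deg G H v ≤ 1) ∧ ∀ y ∈ H, G.Adj v y → col y = tc x) := by
  by_cases hv : v ∈ H
  · exact ⟨0, by norm_num, fun h' => absurd hv h'⟩
  by_cases h0 : deg G H v = 0
  · refine ⟨0, by norm_num, fun _ => ⟨by simp [h0], by simp [h0], fun y hy ha => ?_⟩⟩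
    have : 0 < deg G H v := card_pos.2 ⟨y, mem_nb.2 ⟨hy, ha⟩⟩
    omega
  obtain ⟨y0, hy0⟩ := card_pos.1 (Nat.pos_of_ne_zero h0)
  obtain ⟨y1, y2⟩ := mem_nb.1 hy0
  have key : ∀ y ∈ H, G.Adj v y → col y = col y0 := fun y hy ha => h.h2 v hv y hy y0 y1 ha y2
  by_cases h1 : deg G H v ≤ 1
  · cases hc : col y0
    · exact ⟨1, by norm_num, fun _ => ⟨by simp [h0], by simp [h1],
        fun y hy ha => by rw [key y hy ha, hc]; rfl⟩⟩
    · exact ⟨2, by norm_num, fun _ => ⟨by simp [h0], by simp [h1],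
        fun y hy ha => by rw [key y hy ha, hc]; rfl⟩⟩
  · cases hc : col y0
    · exact ⟨3, by norm_num, fun _ => ⟨by simp [h0], by simp [h1],
        fun y hy ha => by rw [key y hy ha, hc]; rfl⟩⟩
    · exact ⟨4, by norm_num, fun _ => ⟨by simp [h0], by simp [h1],
        fun y hy ha => by rw [key y hy ha, hc]; rfl⟩⟩

omit [Fintype V] in
theorem exists_sorted (v0 : V) (d : V → ℕ) (l : ℕ) : ∀ O : Finset V, O.card = l →
    ∃ ι : ℕ → V, (range l).image ι = O ∧ (∀ i j, i < l → j < l → ι i = ι j → i = j) ∧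
      ∀ i j, i ≤ j → j < l → d (ι j) ≤ d (ι i) := by
  induction l with
  | zero =>
    intro O hO
    exact ⟨fun _ => v0, by simp [card_eq_zero.1 hO], fun _ _ h => by omega, fun _ _ _ h => by omega⟩
  | succ l ih =>
    intro O hO
    obtain ⟨v, hv, hm⟩ := exists_min_image O d (card_pos.1 (by omega))
    obtain ⟨ι, h1, h2, h3⟩ := ih (O.erase v) (by rw [card_erase_of_mem hv]; omega)
    have hin : ∀ i, i < l → ι i ∈ O.erase v := fun i hi => by
      rw [← h1]; exact mem_image_of_mem _ (mem_range.2 hi)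
    refine ⟨fun i => if i < l then ι i else v, ?_, fun i j hi hj e => ?_, fun i j hij hj => ?_⟩
    · rw [range_add_one, image_insert, if_neg (lt_irrefl l), ← insert_erase hv, ← h1]
      congr 1
      exact image_congr fun i hi => if_pos (mem_range.1 (mem_coe.1 hi))
    · by_cases a : i < l <;> by_cases b : j < l <;> simp only [a, b, if_true, if_false] at e
      · exact h2 i j a b e
      · exact absurd e (ne_of_mem_erase (hin i a))
      · exact absurd e.symm (ne_of_mem_erase (hin j b))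
      · omega
    · by_cases a : i < l <;> by_cases b : j < l <;> simp only [a, b, if_true, if_false]
      · exact h3 i j hij b
      · exact hm _ (mem_of_mem_erase (hin i a))
      · omega
      · exact le_rfl

omit [Fintype V] in
theorem deg_enum {G : SimpleGraph V} {ι : ℕ → V} {l : ℕ}
    (hi : ∀ i j, i < l → j < l → ι i = ι j → i = j) (v : V) :
    deg G ((range l).image ι) v = ∑ j ∈ range l, if G.Adj v (ι j) then 1 else 0 := by
  unfold deg nb
  rw [card_filter, sum_image fun i h1 j h2 e => hi i j (mem_range.1 h1) (mem_range.1 h2) e]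

theorem Loc.fin (h : Loc G H col) (v0 : V) {fl : Bool} {B l : ℕ} {ps : List (ℕ × ℕ)} (hl : l ≤ 6)
    (hl0 : fl = true → 0 < l) (hc : enumG (gchk fl B l) ps 0 = true)
    (hps : ∀ j, j < l → ∀ i, i < j → (i, j) ∈ ps) (hps2 : ∀ p ∈ ps, p.1 < 6 ∧ p.2 < 6)
    {O : Finset V} (hO : O.card = l) (hd : ∀ v ∈ O, v ∉ H)
    (hfl : fl = true → ∀ v ∈ O, 2 ≤ deg G O v ∧ 4 ≤ deg G H v + deg G O v) :
    Ok G H col O B := by
  obtain ⟨ι, e, hi, hs⟩ := exists_sorted v0 (deg G O) l O hO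
  choose T hT using h.label
  have hin : ∀ i, i < l → ι i ∈ O := fun i a => by
    rw [← e]; exact mem_image_of_mem _ (mem_range.2 a)
  have hout : ∀ i, i < l → ι i ∉ H := fun i a => hd _ (hin i a)
  have hne : ∀ i j, i < l → j < l → i ≠ j → ι i ≠ ι j := fun i j a b c x => c (hi i j a b x)
  obtain ⟨C, hC, hB⟩ := sound hl hl0 hc hps hps2
    (R := fun i j => i < l ∧ j < l ∧ G.Adj (ι i) (ι j)) (d := fun i => deg G O (ι i))
    (τ := fun i => T (ι i)) (fun i j a => ⟨a.2.1, a.1, a.2.2.symm⟩) (fun i a => a.2.2.ne rfl)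
    (fun i j a => ⟨a.1, a.2.1⟩)
    (fun i a => by
      rw [← e, deg_enum hi]
      refine sum_congr rfl fun j b => ?_
      simp only [a, mem_range.1 b, true_and])
    (fun i a => hs i (i + 1) (by omega) a) (fun i => (hT _).1)
    (fun f i a => by
      obtain ⟨f1, f2⟩ := hfl f _ (hin i a)
      obtain ⟨t1, t2, -⟩ := (hT (ι i)).2 (hout i a)
      refine ⟨f1, fun x => ?_, fun x => ?_⟩
      · have := t1.1 x
        omega
      · have := t2.1 x
        omega)
    (fun a b c x y r1 r2 r3 r4 r5 n1 n2 n3 n4 n5 => h.free (cyc5 r1.2.2 r2.2.2 r3.2.2 r4.2.2 r5.2.2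
      (hne _ _ r1.1 r3.1 n1) (hne _ _ r1.1 r4.1 n2) (hne _ _ r2.1 r4.1 n3) (hne _ _ r2.1 r5.1 n4)
      (hne _ _ r3.1 r5.1 n5)))
    (fun i j r t0 t1 tt => by
      obtain ⟨a, b, r⟩ := r
      obtain ⟨i1, i2, i3⟩ := (hT (ι i)).2 (hout i a)
      obtain ⟨j1, j2, j3⟩ := (hT (ι j)).2 (hout j b)
      obtain ⟨x, hx⟩ := card_pos.1 (Nat.pos_of_ne_zero fun z => t0 (i1.2 z))
      obtain ⟨y, hy⟩ := card_pos.1 (Nat.pos_of_ne_zero fun z => t1 (j1.2 z))
      obtain ⟨x1, x2⟩ := mem_nb.1 hx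
      obtain ⟨y1, y2⟩ := mem_nb.1 hy
      have key : ∀ x ∈ H, ∀ y ∈ H, G.Adj (ι i) x → G.Adj (ι j) y → x = y :=
        fun x hx y hy p q => h.h3 _ (hout i a) _ (hout j b) r x hx y hy p q
          (by rw [i3 x hx p, j3 y hy q]; exact tt)
      refine ⟨i2.2 (card_le_one.2 fun p hp q hq => ?_), j2.2 (card_le_one.2 fun p hp q hq => ?_),
        fun p q r1 r2 r3 => ?_⟩
      · rw [key p (mem_nb.1 hp).1 y y1 (mem_nb.1 hp).2 y2,
          key q (mem_nb.1 hq).1 y y1 (mem_nb.1 hq).2 y2]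
      · rw [← key x x1 p (mem_nb.1 hp).1 x2 (mem_nb.1 hp).2,
          ← key x x1 q (mem_nb.1 hq).1 x2 (mem_nb.1 hq).2]
      · by_contra hn
        rw [not_or] at hn
        rw [← key x x1 y y1 x2 y2] at y2
        exact h.free (cyc5 x2.symm r1.2.2 r2.2.2 r3.2.2 y2
          (fun z => hout p r2.1 (z ▸ x1)) (fun z => hout q r3.1 (z ▸ x1))
          (hne _ _ a r3.1 (Ne.symm hn.2)) r.ne (hne _ _ r2.1 b hn.1)))
  have hex : ∀ v, ∃ b : Bool, (v ∈ H → b = col v) ∧ ∀ i, i < l → ι i = v → b = C i := by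
    intro v
    by_cases hv : ∃ i, i < l ∧ ι i = v
    · obtain ⟨i, a, rfl⟩ := hv
      exact ⟨C i, fun x => absurd x (hout i a), fun j b x => by rw [hi j i b a x]⟩
    · exact ⟨col v, fun _ => rfl, fun i a x => absurd ⟨i, a, x⟩ hv⟩
  choose c hcH hcO using hex
  have hcι : ∀ i, i < l → c (ι i) = C i := fun i a => hcO _ i a rfl
  refine ⟨c, hcH, le_trans ?_ hB⟩
  have hdis : Disjoint O H := disjoint_left.2 hd
  unfold M2
  rw [union_comm, E2_union hdis, E2_eq_zero (G := mono G c) (U := H) (fun x hx y hy a =>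
    h.h1 x hx y hy a.1 (by rw [← hcH x hx, ← hcH y hy]; exact a.2)), add_zero, add_comm]
  unfold E2
  rw [mul_sum, ← sum_add_distrib, ← e,
    sum_image fun i h1 j h2 e => hi i j (mem_range.1 h1) (mem_range.1 h2) e]
  refine sum_le_sum fun i hi' => add_le_add ?_ (le_of_eq ?_)
  · have a := mem_range.1 hi'
    obtain ⟨i1, i2, i3⟩ := (hT (ι i)).2 (hout i a)
    have hsub : deg (mono G c) H (ι i) ≤ deg G H (ι i) :=
      card_le_card fun y hy => mem_nb.2 ⟨(mem_nb.1 hy).1, (mem_nb.1 hy).2.1⟩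
    split_ifs with hh
    · have : T (ι i) ≤ 2 := by
        by_contra z
        exact hC i a (by omega) hh.2
      have := i2.1 this
      omega
    · have : deg (mono G c) H (ι i) = 0 := by
        refine card_eq_zero.2 (eq_empty_of_forall_notMem fun y hy => hh ?_)
        obtain ⟨y1, y2, y3⟩ := mem_nb.1 hy
        refine ⟨fun z => ?_, ?_⟩
        · have : 0 < deg G H (ι i) := card_pos.2 ⟨y, mem_nb.2 ⟨y1, y2⟩⟩
          have := i1.1 z
          omega
        · rw [← hcι i a, y3, hcH y y1, i3 y y1 y2]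
      omega
  · have a := mem_range.1 hi'
    rw [deg_enum hi]
    refine sum_congr rfl fun j hj => ?_
    have b := mem_range.1 hj
    have : (mono G c).Adj (ι i) (ι j) ↔ (i < l ∧ j < l ∧ G.Adj (ι i) (ι j)) ∧ C i = C j := by
      rw [← hcι i a, ← hcι j b]
      exact ⟨fun z => ⟨⟨a, b, z.1⟩, z.2⟩, fun z => ⟨z.1.2.2, z.2⟩⟩
    by_cases z : (mono G c).Adj (ι i) (ι j)
    · rw [if_pos z, if_pos (this.1 z)]
    · rw [if_neg z, if_neg fun y => z (this.2 y)]

theorem Loc.peel (h : Loc G H col) {O : Finset V} {v : V} (hv : v ∈ O) (hd : ∀ v ∈ O, v ∉ H)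
    {m : ℕ} (ho : Ok G H col (O.erase v) m)
    (hr : ¬ (2 ≤ deg G O v ∧ 4 ≤ deg G H v + deg G O v)) : Ok G H col O (m + 2) := by
  obtain ⟨c, hc, hm⟩ := ho
  have hvH := hd v hv
  have hvU : v ∉ H ∪ O.erase v := by simp [hvH]
  have e : H ∪ O = insert v (H ∪ O.erase v) := by
    rw [← union_insert, insert_erase hv]
  have hdis : Disjoint H (O.erase v) :=
    disjoint_right.2 fun x hx => hd x (mem_of_mem_erase hx)
  have hne : ∀ w ∈ H ∪ O.erase v, w ≠ v := fun w hw z => hvU (z ▸ hw)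
  have key : ∃ b, deg (mono G (Function.update c v b)) (H ∪ O.erase v) v ≤ 1 := by
    by_cases h1 : deg G O v ≤ 1
    · obtain ⟨x, -, hx⟩ := h.label v
      obtain ⟨-, -, x3⟩ := hx hvH
      refine ⟨!tc x, le_trans (card_le_card fun y hy => ?_) h1⟩
      obtain ⟨y1, y2, y3⟩ := mem_nb.1 hy
      rw [Function.update_self, Function.update_of_ne (hne y y1)] at y3
      rcases mem_union.1 y1 with y4 | y4
      · rw [hc y y4, x3 y y4 y2] at y3
        simp at y3
      · exact mem_nb.2 ⟨mem_of_mem_erase y4, y2⟩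
    · have h2 := deg_flip (G := G) (U := H ∪ O.erase v) (v := v) (c := Function.update c v true)
        (c' := Function.update c v false) (fun w hw => by
          rw [Function.update_self, Function.update_self, Function.update_of_ne (hne w hw),
            Function.update_of_ne (hne w hw)]
          cases c w <;> simp)
      rw [deg_union (G := G) hdis, deg_erase_self] at h2
      by_cases h3 : deg (mono G (Function.update c v true)) (H ∪ O.erase v) v ≤ 1
      · exact ⟨true, h3⟩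
      · exact ⟨false, by omega⟩
  obtain ⟨b, hb⟩ := key
  refine ⟨Function.update c v b, fun x hx => ?_, ?_⟩
  · rw [Function.update_of_ne (hne x (mem_union_left _ hx)), hc x hx]
  · have h4 : M2 G (H ∪ O.erase v) (Function.update c v b) = M2 G (H ∪ O.erase v) c :=
      M2_congr fun w hw => Function.update_of_ne (hne w hw) _ _
    unfold M2 at *
    rw [e, E2_insert hvU]
    omega

theorem Loc.ok4 (h : Loc G H col) (v0 : V) {O : Finset V} (hO : O.card ≤ 4)
    (hd : ∀ v ∈ O, v ∉ H) : Ok G H col O 4 := by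
  obtain ⟨l, hl⟩ : ∃ l, O.card = l := ⟨_, rfl⟩
  rw [hl] at hO
  interval_cases l
  · exact h.fin v0 (by norm_num) (by simp) chk0 (by decide) (by decide) hl hd (by simp)
  · exact h.fin v0 (by norm_num) (by simp) chk1 (by decide) (by decide) hl hd (by simp)
  · exact h.fin v0 (by norm_num) (by simp) chk2 (by decide) (by decide) hl hd (by simp)
  · exact h.fin v0 (by norm_num) (by simp) chk3 (by decide) (by decide) hl hd (by simp)
  · exact h.fin v0 (by norm_num) (by simp) chk4 (by decide) (by decide) hl hd (by simp)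

omit [Fintype V] in
theorem Ok.mono {O : Finset V} {m m' : ℕ} (h : Ok G H col O m) (hm : m ≤ m') :
    Ok G H col O m' := by
  obtain ⟨c, h1, h2⟩ := h
  exact ⟨c, h1, h2.trans hm⟩

theorem Loc.ok5 (h : Loc G H col) (v0 : V) {O : Finset V} (hO : O.card ≤ 5)
    (hd : ∀ v ∈ O, v ∉ H) : Ok G H col O 6 := by
  by_cases h4 : O.card ≤ 4
  · exact (h.ok4 v0 h4 hd).mono (by norm_num)
  by_cases hr : ∀ v ∈ O, 2 ≤ deg G O v ∧ 4 ≤ deg G H v + deg G O v
  · exact h.fin v0 (by norm_num) (by simp) chk5 (by decide) (by decide) (by omega) hd fun _ => hr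
  · rw [not_forall₂] at hr
    obtain ⟨v, hv, hr⟩ := hr
    exact h.peel hv hd (h.ok4 v0 (by rw [card_erase_of_mem hv]; omega)
      fun x hx => hd x (mem_of_mem_erase hx)) hr

theorem Loc.ok6 (h : Loc G H col) (v0 : V) {O : Finset V} (hO : O.card ≤ 6)
    (hd : ∀ v ∈ O, v ∉ H) : Ok G H col O 8 := by
  by_cases h4 : O.card ≤ 5
  · exact (h.ok5 v0 h4 hd).mono (by norm_num)
  by_cases hr : ∀ v ∈ O, 2 ≤ deg G O v ∧ 4 ≤ deg G H v + deg G O v
  · exact h.fin v0 (by norm_num) (by simp) chk6 (by decide) (by decide) (by omega) hd fun _ => hr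
  · rw [not_forall₂] at hr
    obtain ⟨v, hv, hr⟩ := hr
    exact h.peel hv hd (h.ok5 v0 (by rw [card_erase_of_mem hv]; omega)
      fun x hx => hd x (mem_of_mem_erase hx)) hr

theorem Ok.gm_le {m : ℕ} (h : Ok G H col (univ \ H) m) : gm G univ ≤ m := by
  obtain ⟨c, -, h2⟩ := h
  rw [union_sdiff_of_subset (subset_univ H)] at h2
  exact (SS.gm_le univ c).trans h2

/-- The inequality for `k = 2`: `gamma2 ≤ 3` for `b = 3` and `gamma2 ≤ 4` for `b = 4`. -/
theorem ineq (b : ℕ) (h3 : 3 ≤ b) (hb : b ≤ 4) :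
    ∃ n₀ : ℕ, ∀ n, n₀ ≤ n → ∀ G : SimpleGraph (Fin n), (SimpleGraph.cycleGraph 5).Free G →
      (n - (4 + b) + 2) ^ 2 / 4 + 1 ≤ G.edgeSet.ncard → gamma2 G ≤ b := by
  obtain ⟨n₀, hn₀⟩ := core_exists 2 (b + 2) le_rfl (by omega)
  refine ⟨max n₀ 8, fun n hn G hfree he => ?_⟩
  have hn1 : n₀ ≤ n := le_trans (le_max_left _ _) hn
  have hn2 : 8 ≤ n := le_trans (le_max_right _ _) hn
  have hf : ¬ Cyc G univ 5 := not_cyc hfree
  have e1 := E2_univ G
  have hsq : (n - (b + 2)) ^ 2 ≤ 2 * E2 G univ + 1 := by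
    have : n - (b + 2) = n - (4 + b) + 2 := by omega
    rw [this]; omega
  obtain ⟨H, col, hcore, hl⟩ := hn₀ n hn1 G hf hsq
  have hL := loc_of_core hcore hf
  have g1 := gamma2_eq G
  have hd : ∀ v ∈ univ \ H, v ∉ H := fun v hv => (mem_sdiff.1 hv).2
  interval_cases b
  · have := (hL.ok5 ⟨0, by omega⟩ hl hd).gm_le
    omega
  · have := (hL.ok6 ⟨0, by omega⟩ hl hd).gm_le
    omega

end Pool.Agent.Lib.MP_1ed8ce_co.SS2
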