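import Pool.Agent.Lib.MP_1ed8ce_co.Proof
import Pool.Agent.Lib.MP_1ed8ce_co.SS2.Ineq

/-! The equality clause fails for `k = 2`, `b = 4`. -/

namespace Pool.Agent.Lib.MP_1ed8ce_co.SS2

open SimpleGraph

/-- Classes: 0,1,2 with 6 form a `K4`; 3,4,5 with 7 form a `K4`; 0 is joined to 3;
6 lies in the part `X`, 7 in the part `Y`, 8 is the rest of `X` and 9 the rest of `Y`. -/
def qE : List (Fin 10 × Fin 10) :=
  [(0,1),(0,2),(1,2),(0,6),(1,6),(2,6),(3,4),(3,5),(4,5),(3,7),(4,7),(5,7),(0,3),(6,9),(7,8),(8,9)]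

def qa (p q : Fin 10) : Bool := decide ((p, q) ∈ qE ∨ (q, p) ∈ qE)

theorem qa_symm : ∀ p q, qa p q = qa q p := by decide +kernel
theorem qa_irrefl : ∀ p, qa p p = false := by decide +kernel

set_option synthInstance.maxSize 2000 in
theorem qa_c5' : ∀ a b : Fin 10, qa a b = true → ∀ c, qa b c = true → ∀ d, qa c d = true →
    ∀ e, qa d e = true → qa e a = true →
    (a = c ∧ a.val < 8) ∨ (a = d ∧ a.val < 8) ∨ (b = d ∧ b.val < 8) ∨ (b = e ∧ b.val < 8) ∨
      (c = e ∧ c.val < 8) := by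
  decide +kernel

theorem qa_c5 (a b c d e : Fin 10) (h1 : qa a b = true) (h2 : qa b c = true) (h3 : qa c d = true)
    (h4 : qa d e = true) (h5 : qa e a = true) :
    (a = c ∧ a.val < 8) ∨ (a = d ∧ a.val < 8) ∨ (b = d ∧ b.val < 8) ∨ (b = e ∧ b.val < 8) ∨
      (c = e ∧ c.val < 8) := qa_c5' a b h1 c h2 d h3 e h4 h5

variable {V : Type}

def blow (φ : V → Fin 10) : SimpleGraph V where
  Adj v w := qa (φ v) (φ w) = true
  symm := ⟨fun v w h => by rw [qa_symm]; exact h⟩
  loopless := ⟨fun v h => by rw [qa_irrefl] at h; exact Bool.noConfusion h⟩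

theorem blow_adj (φ : V → Fin 10) (v w : V) : (blow φ).Adj v w ↔ qa (φ v) (φ w) = true := Iff.rfl

instance (φ : V → Fin 10) : DecidableRel (blow φ).Adj := fun v w =>
  inferInstanceAs (Decidable (qa (φ v) (φ w) = true))

theorem blow_free (φ : V → Fin 10) (hinj : ∀ v w, φ v = φ w → (φ v).val < 8 → v = w) :
    (cycleGraph 5).Free (blow φ) := by
  rintro ⟨f⟩
  have hf := f.injective
  have h01 : (blow φ).Adj (f 0) (f 1) := f.toHom.map_adj (by decide)
  have h12 : (blow φ).Adj (f 1) (f 2) := f.toHom.map_adj (by decide)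
  have h23 : (blow φ).Adj (f 2) (f 3) := f.toHom.map_adj (by decide)
  have h34 : (blow φ).Adj (f 3) (f 4) := f.toHom.map_adj (by decide)
  have h40 : (blow φ).Adj (f 4) (f 0) := f.toHom.map_adj (by decide)
  rcases qa_c5 _ _ _ _ _ h01 h12 h23 h34 h40 with h | h | h | h | h <;>
    exact absurd (hf (hinj _ _ h.1 h.2)) (by decide)

theorem blow_edges [Fintype V] [DecidableEq V] (φ : V → Fin 10) (sz : Fin 10 → ℕ)
    (hsz : ∀ p, (Finset.univ.filter (fun v => φ v = p)).card = sz p) :
    2 * (blow φ).edgeFinset.card = ∑ p, ∑ q, if qa p q = true then sz p * sz q else 0 := by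
  rw [← sum_degrees_eq_twice_card_edges]
  have hsum : ∀ g : Fin 10 → ℕ, ∑ v, g (φ v) = ∑ p, sz p * g p := by
    intro g
    rw [← Finset.sum_fiberwise (s := Finset.univ) (g := φ)]
    refine Finset.sum_congr rfl fun p _ => ?_
    rw [← hsz p, Finset.sum_congr rfl (g := fun _ => g p)]
    · simp
    · intro v hv
      rw [(Finset.mem_filter.1 hv).2]
  have hdeg : ∀ v, (blow φ).degree v = ∑ q, if qa (φ v) q = true then sz q else 0 := by
    intro v
    rw [← card_neighborFinset_eq_degree, neighborFinset_eq_filter, Finset.card_filter]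
    have := hsum (fun q => if qa (φ v) q = true then 1 else 0)
    simp only [mul_ite, mul_one, mul_zero] at this
    rw [← this]
    rfl
  rw [Finset.sum_congr rfl (fun v _ => hdeg v),
    hsum (fun p => ∑ q, if qa p q = true then sz q else 0)]
  refine Finset.sum_congr rfl fun p _ => ?_
  rw [Finset.mul_sum]
  refine Finset.sum_congr rfl fun q _ => ?_
  split_ifs <;> simp

theorem blow_low [Fintype V] [DecidableEq V] (φ : V → Fin 10) (ι : Fin 10 → V)
    (hι : ∀ p, φ (ι p) = p) : 4 ≤ gamma2 (blow φ) := by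
  have ιinj : Function.Injective ι := fun p q h => by rw [← hι p, ← hι q, h]
  have cl : ∀ Q : Finset (Fin 10), Q.card = 4 → (∀ p ∈ Q, ∀ q ∈ Q, p ≠ q → qa p q = true) →
      4 ≤ SS.gm (blow φ) (Q.image ι) := by
    intro Q hQ hq
    have h1 : (blow φ).IsClique ((Q.image ι : Finset V) : Set V) := by
      intro x hx y hy hxy
      obtain ⟨p, hp, rfl⟩ := Finset.mem_image.1 (Finset.mem_coe.1 hx)
      obtain ⟨q, hq', rfl⟩ := Finset.mem_image.1 (Finset.mem_coe.1 hy)
      rw [blow_adj, hι, hι]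
      exact hq p hp q hq' fun h => hxy (by rw [h])
    have h2 := SS.gm_clique h1
    rw [Finset.card_image_of_injective _ ιinj, hQ] at h2
    exact h2
  have h1 := cl {0, 1, 2, 6} (by decide) (by decide +kernel)
  have h2 := cl {3, 4, 5, 7} (by decide) (by decide +kernel)
  have h3 := SS.gm_super (G := blow φ) (A := ({0, 1, 2, 6} : Finset (Fin 10)).image ι)
    (B := ({3, 4, 5, 7} : Finset (Fin 10)).image ι) (by
      rw [← Finset.image_inter _ _ ιinj, Finset.card_image_of_injective _ ιinj]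
      decide)
  have h4 := SS.gm_mono (G := blow φ) (Finset.subset_univ
    (({0, 1, 2, 6} : Finset (Fin 10)).image ι ∪ ({3, 4, 5, 7} : Finset (Fin 10)).image ι))
  have h5 := SS.gamma2_eq (blow φ)
  omega

/-- Connectivity after deleting everything outside `S`, where `S` misses at most one vertex. -/
theorem blow_preconn (φ : V → Fin 10) (ι : Fin 10 → V) (hι : ∀ p, φ (ι p) = p)
    (hinj : ∀ v w, φ v = φ w → (φ v).val < 8 → v = w)
    (S : Set V) (x y : V) (hx : φ x = 8) (hy : φ y = 9) (hxS : x ∈ S) (hyS : y ∈ S)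
    (hS : ∀ p q : Fin 10, p ≠ q → ι p ∈ S ∨ ι q ∈ S) :
    ((blow φ).induce S).Preconnected := by
  have hv : ∀ v (p : Fin 10), φ v = p → p.val < 8 → v = ι p := by
    intro v p h hp
    exact hinj _ _ (by rw [h, hι]) (by rw [h]; exact hp)
  apply preconnected_of_hub _ S x hxS
  set R := Relation.ReflTransGen (fun a b => a ∈ S ∧ b ∈ S ∧ (blow φ).Adj a b) x with hR
  have step : ∀ a b (p q : Fin 10), R a → a ∈ S → b ∈ S → φ a = p → φ b = q → qa p q = true →
      R b := by
    intro a b p q ha haS hbS hp hq hpq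
    exact Relation.ReflTransGen.tail ha ⟨haS, hbS, by rw [blow_adj, hp, hq]; exact hpq⟩
  have rx : R x := Relation.ReflTransGen.refl
  have ry : R y := step x y 8 9 rx hxS hyS hx hy (by decide +kernel)
  have stp : ∀ p q : Fin 10, qa p q = true → ι p ∈ S → R (ι p) → ι q ∈ S → R (ι q) :=
    fun p q hpq hp rp hq => step _ _ p q rp hp hq (hι p) (hι q) hpq
  have r6 : ι 6 ∈ S → R (ι 6) := fun h => step y _ 9 6 ry hyS h hy (hι _) (by decide +kernel)
  have r7 : ι 7 ∈ S → R (ι 7) := fun h => step x _ 8 7 rx hxS h hx (hι _) (by decide +kernel)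
  have r0 : ι 0 ∈ S → R (ι 0) := by
    intro h
    by_cases h6 : ι 6 ∈ S
    · exact stp 6 0 (by decide +kernel) h6 (r6 h6) h
    · have h7 := (hS 6 7 (by decide)).resolve_left h6
      have h3 := (hS 6 3 (by decide)).resolve_left h6
      exact stp 3 0 (by decide +kernel) h3 (stp 7 3 (by decide +kernel) h7 (r7 h7) h3) h
  have r3 : ι 3 ∈ S → R (ι 3) := by
    intro h
    by_cases h7 : ι 7 ∈ S
    · exact stp 7 3 (by decide +kernel) h7 (r7 h7) h
    · have h0 := (hS 7 0 (by decide)).resolve_left h7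
      exact stp 0 3 (by decide +kernel) h0 (r0 h0) h
  have r12 : ∀ p : Fin 10, qa 6 p = true → qa 0 p = true → ι p ∈ S → R (ι p) := by
    intro p h1 h2 h
    by_cases h6 : ι 6 ∈ S
    · exact stp 6 p h1 h6 (r6 h6) h
    · have h0 := (hS 6 0 (by decide)).resolve_left h6
      exact stp 0 p h2 h0 (r0 h0) h
  have r45 : ∀ p : Fin 10, qa 7 p = true → qa 3 p = true → ι p ∈ S → R (ι p) := by
    intro p h1 h2 h
    by_cases h7 : ι 7 ∈ S
    · exact stp 7 p h1 h7 (r7 h7) h
    · have h3 := (hS 7 3 (by decide)).resolve_left h7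
      exact stp 3 p h2 h3 (r3 h3) h
  intro w hw
  have hcase : φ w = 0 ∨ φ w = 1 ∨ φ w = 2 ∨ φ w = 3 ∨ φ w = 4 ∨ φ w = 5 ∨ φ w = 6 ∨ φ w = 7 ∨
      φ w = 8 ∨ φ w = 9 := by
    generalize φ w = p
    revert p
    decide
  rcases hcase with h | h | h | h | h | h | h | h | h | h
  · have e := hv w _ h (by decide); rw [e] at hw ⊢; exact r0 hw
  · have e := hv w _ h (by decide); rw [e] at hw ⊢
    exact r12 1 (by decide +kernel) (by decide +kernel) hw
  · have e := hv w _ h (by decide); rw [e] at hw ⊢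
    exact r12 2 (by decide +kernel) (by decide +kernel) hw
  · have e := hv w _ h (by decide); rw [e] at hw ⊢; exact r3 hw
  · have e := hv w _ h (by decide); rw [e] at hw ⊢
    exact r45 4 (by decide +kernel) (by decide +kernel) hw
  · have e := hv w _ h (by decide); rw [e] at hw ⊢
    exact r45 5 (by decide +kernel) (by decide +kernel) hw
  · have e := hv w _ h (by decide); rw [e] at hw ⊢; exact r6 hw
  · have e := hv w _ h (by decide); rw [e] at hw ⊢; exact r7 hw
  · exact step y w 9 8 ry hyS hw hy h (by decide +kernel)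
  · exact step x w 8 9 rx hxS hw hx h (by decide +kernel)

theorem blow_noCut (φ : V → Fin 10) (ι : Fin 10 → V) (hι : ∀ p, φ (ι p) = p)
    (hinj : ∀ v w, φ v = φ w → (φ v).val < 8 → v = w)
    (h7 : ∀ v, ∃ x, x ≠ v ∧ φ x = 8) (h8 : ∀ v, ∃ y, y ≠ v ∧ φ y = 9) :
    NoCutVertex (blow φ) Set.univ := by
  have ιinj : Function.Injective ι := fun p q h => by rw [← hι p, ← hι q, h]
  constructor
  · have : Nonempty (Set.univ : Set V) := ⟨⟨ι 0, trivial⟩⟩
    exact Connected.mk (blow_preconn φ ι hι hinj _ (ι 8) (ι 9) (hι _) (hι _) trivial trivial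
      (fun _ _ _ => Or.inl trivial))
  · intro v _
    obtain ⟨x, hxv, hx⟩ := h7 v
    obtain ⟨y, hyv, hy⟩ := h8 v
    refine blow_preconn φ ι hι hinj _ x y hx hy ⟨trivial, hxv⟩ ⟨trivial, hyv⟩ ?_
    intro p q hpq
    by_cases h : ι p = v
    · right
      refine ⟨trivial, fun h' => hpq (ιinj ?_)⟩
      rw [h]; exact (Set.mem_singleton_iff.1 h').symm
    · left; exact ⟨trivial, h⟩

def szf (a c : ℕ) (p : Fin 10) : ℕ := if p = 8 then a else if p = 9 then c else 1

theorem exists_phi (n a c : ℕ) (hn : n = 8 + a + c) : ∃ φ : Fin n → Fin 10,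
    ∀ p, (Finset.univ.filter (fun v => φ v = p)).card = szf a c p := by
  have hcard : Fintype.card (Fin n) = Fintype.card (Σ p : Fin 10, Fin (szf a c p)) := by
    rw [Fintype.card_sigma]
    simp only [Fintype.card_fin]
    simp [Fin.sum_univ_succ, szf, hn]
    omega
  let e := Fintype.equivOfCardEq hcard
  refine ⟨fun v => (e v).1, fun p => ?_⟩
  have : (Finset.univ.filter (fun v => (e v).1 = p)).card =
      (Finset.univ.filter (fun v : (Σ p : Fin 10, Fin (szf a c p)) => v.1 = p)).card := by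
    apply Finset.card_bij (fun v _ => e v)
    · intro v hv; simpa using hv
    · intro v _ w _ h; exact e.injective h
    · intro w hw
      exact ⟨e.symm w, by simpa using hw, by simp⟩
  rw [this, Finset.card_filter, Fintype.sum_sigma, Finset.sum_eq_single p]
  · simp
  · intro q _ hq; simp [hq]
  · simp

theorem cex (n : ℕ) (hn : 12 ≤ n) : ∃ G : SimpleGraph (Fin n),
    (cycleGraph 5).Free G ∧ (n - 6) ^ 2 / 4 + 12 ≤ G.edgeSet.ncard ∧ 4 ≤ gamma2 G ∧
      ¬ IsTss 2 4 n G := by
  obtain ⟨φ, hφ⟩ := exists_phi n ((n - 6) / 2 - 1) ((n - 5) / 2 - 1) (by omega)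
  have hpos : ∀ p, ∃ v, φ v = p := by
    intro p
    have : 0 < (Finset.univ.filter (fun v => φ v = p)).card := by
      rw [hφ]; unfold szf; split_ifs <;> omega
    obtain ⟨v, hv⟩ := Finset.card_pos.1 this
    exact ⟨v, (Finset.mem_filter.1 hv).2⟩
  choose ι hι using hpos
  have hinj : ∀ v w, φ v = φ w → (φ v).val < 8 → v = w := by
    intro v w h hlt
    have : (Finset.univ.filter (fun u => φ u = φ v)).card ≤ 1 := by
      rw [hφ]; unfold szf
      split_ifs with h1 h2
      · rw [h1] at hlt; exact absurd hlt (by decide)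
      · rw [h2] at hlt; exact absurd hlt (by decide)
      · exact le_rfl
    exact Finset.card_le_one.1 this v (by simp) w (by simp [h])
  have htwo : ∀ p : Fin 10, (p = 8 ∨ p = 9) → ∀ v, ∃ x, x ≠ v ∧ φ x = p := by
    intro p hp v
    have : 1 < (Finset.univ.filter (fun u => φ u = p)).card := by
      rw [hφ]; unfold szf
      rcases hp with rfl | rfl
      · simp only [if_true]; omega
      · rw [if_neg (by decide), if_pos rfl]; omega
    obtain ⟨x, hx, hxv⟩ := Finset.exists_mem_ne this v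
    exact ⟨x, hxv, (Finset.mem_filter.1 hx).2⟩
  refine ⟨blow φ, blow_free φ hinj, ?_, blow_low φ ι hι, ?_⟩
  · have h := blow_edges φ _ hφ
    rw [← coe_edgeFinset, Set.ncard_coe_finset]
    obtain ⟨a, ha⟩ : ∃ a, a = (n - 6) / 2 - 1 := ⟨_, rfl⟩
    obtain ⟨c, hc⟩ : ∃ c, c = (n - 5) / 2 - 1 := ⟨_, rfl⟩
    rw [← ha, ← hc] at h
    have h2 : (∑ p, ∑ q, if qa p q = true then szf a c p * szf a c q else 0) =
        2 * (13 + a + c + a * c) := by
      simp [Fin.sum_univ_succ, szf, qa, qE]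
      ring
    rw [h2] at h
    have h3 : (blow φ).edgeFinset.card = 13 + a + c + a * c := by omega
    rw [h3]
    have h4 : (n - 6) ^ 2 / 4 ≤ (a + 1) * (c + 1) := by
      rcases Nat.even_or_odd' (n - 6) with ⟨t, ht | ht⟩
      · have e1 : a + 1 = t := by omega
        have e2 : c + 1 = t := by omega
        rw [ht, e1, e2]
        apply Nat.div_le_of_le_mul
        nlinarith
      · have e1 : a + 1 = t := by omega
        have e2 : c + 1 = t + 1 := by omega
        rw [ht, e1, e2]
        have : (2 * t + 1) ^ 2 = 4 * (t * (t + 1)) + 1 := by ring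
        omega
    nlinarith
  · rintro ⟨-, S₁, S₂, S₃, h12, -, -, hB, -⟩
    have hu := blow_noCut φ ι hι hinj (htwo 8 (Or.inl rfl)) (htwo 9 (Or.inr rfl))
    have hall : ∀ S, IsBlock (blow φ) S → S = Set.univ := fun S hS =>
      Set.eq_univ_of_univ_subset (hS.2 hu (Set.subset_univ S))
    exact h12 ((hall S₁ ((hB _).2 (Or.inl rfl))).trans
      (hall S₂ ((hB _).2 (Or.inr (Or.inl rfl)))).symm)

end Pool.Agent.Lib.MP_1ed8ce_co.SS2
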