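import Mathlib

/-! A finite check on labelled graphs with at most six vertices. -/

namespace Pool.Agent.Lib.MP_1ed8ce_co.SS2

noncomputable def allTo (n : ℕ) (f : ℕ → Bool) : Bool :=
  Nat.rec true (fun i acc => f i && acc) n

noncomputable def sumTo (n : ℕ) (f : ℕ → ℕ) : ℕ :=
  Nat.rec 0 (fun i acc => Nat.add (f i) acc) n

noncomputable def anyL {α : Type} (L : List α) (f : α → Bool) : Bool :=
  List.rec false (fun a _ acc => f a || acc) L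

noncomputable def frc (g : ℕ) (k : ℕ → Bool) : Bool :=
  Nat.rec (k 0) (fun n _ => k (Nat.succ n)) g

def tb (g i : ℕ) : Bool := Nat.beq (Nat.land (Nat.shiftRight g i) 1) 1

def ad (g i j : ℕ) : Bool := tb g (Nat.add (Nat.mul 6 i) j)

def tc (x : ℕ) : Bool := Nat.beq (Nat.mod x 2) 0

def eqb (a b : Bool) : Bool := cond a b (!b)

def pop (x : ℕ) : ℕ :=
  Nat.land (Nat.shiftRight 5266721624626081916652898579601397356032429460333936579656 (Nat.mul 3 x)) 7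

def dg (g i : ℕ) : ℕ := pop (Nat.land (Nat.shiftRight g (Nat.mul 6 i)) 63)

def c5s : List (ℕ × ℕ × ℕ × ℕ × ℕ × ℕ) :=
  [
   (21004546, 0, 1, 2, 3, 4), (134545666, 0, 1, 2, 4, 3), (17891842, 0, 1, 3, 2, 4),
   (71307778, 0, 1, 3, 4, 2), (67404802, 0, 1, 4, 2, 3), (135271426, 0, 1, 4, 3, 2),
   (20980228, 0, 2, 1, 3, 4), (134489092, 0, 2, 1, 4, 3), (17335300, 0, 2, 3, 1, 4),
   (33882628, 0, 2, 4, 1, 3), (17367304, 0, 3, 1, 2, 4), (17835016, 0, 3, 2, 1, 4),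
   (1082163458, 0, 1, 2, 3, 5), (8590328066, 0, 1, 2, 5, 3), (1074921986, 0, 1, 3, 2, 5),
   (4303360514, 0, 1, 3, 5, 2), (4295264258, 0, 1, 5, 2, 3), (8590989314, 0, 1, 5, 3, 2),
   (1082139140, 0, 2, 1, 3, 5), (8590206980, 0, 2, 1, 5, 3), (1074300932, 0, 2, 3, 1, 5),
   (2147877380, 0, 2, 5, 1, 3), (1074397448, 0, 3, 1, 2, 5), (1074800648, 0, 3, 2, 1, 5),
   (1610678530, 0, 1, 2, 4, 5), (17196777730, 0, 1, 2, 5, 4), (1140982786, 0, 1, 4, 2, 5),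
   (4831843330, 0, 1, 4, 5, 2), (4311812098, 0, 1, 5, 2, 4), (17246984194, 0, 1, 5, 4, 2),
   (1610621956, 0, 2, 1, 4, 5), (17196656644, 0, 2, 1, 5, 4), (1107363844, 0, 2, 4, 1, 5),
   (2164392964, 0, 2, 5, 1, 4), (1107427600, 0, 4, 1, 2, 5), (1140860944, 0, 4, 2, 1, 5),
   (1614807554, 0, 1, 3, 4, 5), (17205035522, 0, 1, 3, 5, 4), (1216349186, 0, 1, 4, 3, 5),
   (9127068674, 0, 1, 4, 5, 3), (8610908162, 0, 1, 5, 3, 4), (17314351106, 0, 1, 5, 4, 3),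
   (1611138056, 0, 3, 1, 4, 5), (17197172744, 0, 3, 1, 5, 4), (1111492616, 0, 3, 4, 1, 5),
   (2172650504, 0, 3, 5, 1, 4), (1115685392, 0, 4, 1, 3, 5), (1208485904, 0, 4, 3, 1, 5),
   (1614839812, 0, 2, 3, 4, 5), (17205067780, 0, 2, 3, 5, 4), (1216413700, 0, 2, 4, 3, 5),
   (9127133188, 0, 2, 4, 5, 3), (8611037188, 0, 2, 5, 3, 4), (17314480132, 0, 2, 5, 4, 3),
   (1611726856, 0, 3, 2, 4, 5), (17197826056, 0, 3, 2, 5, 4), (1145176072, 0, 3, 4, 2, 5),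
   (4320198664, 0, 3, 5, 2, 4), (1149272080, 0, 4, 2, 3, 5), (1209139216, 0, 4, 3, 2, 5),
   (2688581888, 1, 2, 3, 4, 5), (17221845248, 1, 2, 3, 5, 4), (2290155776, 1, 2, 4, 3, 5),
   (9127395584, 1, 2, 4, 5, 3), (8627814656, 1, 2, 5, 3, 4), (17314742528, 1, 2, 5, 4, 3),
   (2685469184, 1, 3, 2, 4, 5), (17214603776, 1, 3, 2, 5, 4), (2218918400, 1, 3, 4, 2, 5),
   (4336976384, 1, 3, 5, 2, 4), (2223014912, 1, 4, 2, 3, 5), (2282882048, 1, 4, 3, 2, 5)]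

def xs : List ℕ :=
  [
   0, 1, 2, 4, 8, 16, 32, 3, 5, 6, 9, 10, 12, 17, 18, 20, 24, 33, 34, 36, 40, 48, 7, 11, 13, 14,
   19, 21, 22, 25, 26, 28, 35, 37, 38, 41, 42, 44, 49, 50, 52, 56, 15, 23, 27, 29, 30, 39, 43,
   45, 46, 51, 53, 54, 57, 58, 60, 31, 47, 55, 59, 61, 62, 63]

noncomputable def hasC5 (g : ℕ) : Bool := anyL c5s fun m => Nat.beq (Nat.land g m.1) m.1

noncomputable def noC4 (l g i j : ℕ) : Bool :=
  allTo l fun a => !(ad g i a) || Nat.beq a j ||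
    allTo l fun b => !(ad g a b) || Nat.beq b i || !(ad g b j)

noncomputable def okv (fl : Bool) (l g : ℕ) (t : ℕ → ℕ) (i : ℕ) : Bool :=
  (!fl || Nat.ble 3 (t i) || Nat.ble 4 (dg g i) || (Nat.ble 1 (t i) && Nat.ble 3 (dg g i))) &&
  (Nat.beq (t i) 0 || allTo l fun j => Nat.ble j i || !(ad g i j) || Nat.beq (t j) 0 ||
    !(eqb (tc (t i)) (tc (t j))) || (Nat.ble (t i) 2 && Nat.ble (t j) 2 && noC4 l g i j))

noncomputable def cost (l g : ℕ) (t : ℕ → ℕ) (K : ℕ) : ℕ :=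
  sumTo l fun i => Nat.add (cond (Nat.beq (t i) 0) 0 (cond (eqb (tb K i) (tc (t i))) 2 0))
    (sumTo l fun j => cond (ad g i j && eqb (tb K i) (tb K j)) 1 0)

noncomputable def good (B l g : ℕ) (t : ℕ → ℕ) (K : ℕ) : Bool :=
  (allTo l fun i => Nat.ble (t i) 2 || !(eqb (tb K i) (tc (t i)))) && Nat.ble (cost l g t K) B

noncomputable def leaf (B l g : ℕ) (t : ℕ → ℕ) : Bool :=
  frc (sumTo l fun i => cond (tc (t i)) 0 (Nat.pow 2 i)) fun P =>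
    anyL xs fun x => frc (Nat.xor P x) (good B l g t)

def upd (t : ℕ → ℕ) (i x : ℕ) : ℕ → ℕ := fun j => cond (Nat.beq j i) x (t j)

noncomputable def dfs (ok : (ℕ → ℕ) → ℕ → Bool) (lf : (ℕ → ℕ) → Bool) (n : ℕ) :
    (ℕ → ℕ) → Bool :=
  Nat.rec lf (fun i ih t => allTo 5 fun x => !(ok (upd t i x) i) || ih (upd t i x)) n

noncomputable def gchk (fl : Bool) (B l g : ℕ) : Bool :=
  !(allTo (l - 1) fun i => Nat.ble (dg g (Nat.succ i)) (dg g i)) ||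
    (fl && Nat.ble (dg g (l - 1)) 1) || hasC5 g ||
    dfs (okv fl l g) (leaf B l g) l fun _ => 0

def msk (p : ℕ × ℕ) : ℕ :=
  Nat.lor (Nat.pow 2 (Nat.add (Nat.mul 6 p.1) p.2)) (Nat.pow 2 (Nat.add (Nat.mul 6 p.2) p.1))

noncomputable def enumG (lf : ℕ → Bool) (ps : List (ℕ × ℕ)) : ℕ → Bool :=
  List.rec lf (fun p _ ih g => ih g && frc (Nat.lor g (msk p)) ih) ps

def P4 : List (ℕ × ℕ) :=
  [
   (2, 3), (1, 3), (0, 3), (1, 2), (0, 2), (0, 1)]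

def P5 : List (ℕ × ℕ) :=
  [
   (3, 4), (2, 4), (1, 4), (0, 4), (2, 3), (1, 3), (0, 3), (1, 2), (0, 2), (0, 1)]

def P6 : List (ℕ × ℕ) :=
  [
   (4, 5), (3, 5), (2, 5), (1, 5), (0, 5), (3, 4), (2, 4), (1, 4), (0, 4), (2, 3), (1, 3),
   (0, 3), (1, 2), (0, 2), (0, 1)]

theorem chk0 : enumG (gchk false 4 0) P4 0 = true := by decide +kernel
theorem chk1 : enumG (gchk false 4 1) P4 0 = true := by decide +kernel
theorem chk2 : enumG (gchk false 4 2) P4 0 = true := by decide +kernel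
theorem chk3 : enumG (gchk false 4 3) P4 0 = true := by decide +kernel
theorem chk4 : enumG (gchk false 4 4) P4 0 = true := by decide +kernel
theorem chk5 : enumG (gchk true 6 5) P5 0 = true := by decide +kernel
theorem chk6 : enumG (gchk true 8 6) P6 0 = true := by decide +kernel

end Pool.Agent.Lib.MP_1ed8ce_co.SS2
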