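import Pool.Agent.Lib.MP_1ed8ce_co.SS2.Cex

/-! The full classification. -/

namespace Pool.Agent.Lib.MP_1ed8ce_co.SS2

open SimpleGraph

theorem classify (k b : ℕ) (hk : 2 ≤ k) (h3 : 3 ≤ b) (hb : b ≤ 2 * k) :
    ∃ n₀ : ℕ, ∀ n, n₀ ≤ n →
      (∀ G : SimpleGraph (Fin n), (cycleGraph (2 * k + 1)).Free G →
        (n - (2 * k + b) + 2) ^ 2 / 4 + (2 * k).choose 2 + b.choose 2 ≤ G.edgeSet.ncard →
        gamma2 G ≤ 2 * k.choose 2 + (b / 2).choose 2 + ((b + 1) / 2).choose 2 ∧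
          (3 ≤ k → (gamma2 G = 2 * k.choose 2 + (b / 2).choose 2 + ((b + 1) / 2).choose 2 ↔
            IsTss k b n G))) ∧
      (k = 2 → ∃ G : SimpleGraph (Fin n), (cycleGraph (2 * k + 1)).Free G ∧
        (n - (2 * k + b) + 2) ^ 2 / 4 + (2 * k).choose 2 + b.choose 2 ≤ G.edgeSet.ncard ∧
        gamma2 G = 2 * k.choose 2 + (b / 2).choose 2 + ((b + 1) / 2).choose 2 ∧
        ¬ IsTss k b n G) := by
  by_cases hk3 : 3 ≤ k
  · obtain ⟨n₀, h⟩ := SS.main k b hk3 h3 hb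
    exact ⟨n₀, fun n hn => ⟨fun G hf he => ⟨(h n hn G hf he).1, fun _ => (h n hn G hf he).2⟩,
      fun h2 => by omega⟩⟩
  obtain rfl : k = 2 := by omega
  obtain ⟨n₀, h⟩ := ineq b h3 hb
  have hB : 2 * (2 : ℕ).choose 2 + (b / 2).choose 2 + ((b + 1) / 2).choose 2 = b := by
    interval_cases b <;> decide
  have c4 : (2 * 2 : ℕ).choose 2 = 6 := by decide
  rw [hB, c4]
  refine ⟨max n₀ 12, fun n hn => ?_⟩
  have hn1 : n₀ ≤ n := le_trans (le_max_left _ _) hn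
  have hn2 : 12 ≤ n := le_trans (le_max_right _ _) hn
  refine ⟨fun G hf he => ⟨h n hn1 G hf (by
    have e : 2 * 2 + b = 4 + b := by omega
    rw [e] at he
    omega), fun h2 => by omega⟩, fun _ => ?_⟩
  interval_cases b
  · obtain ⟨G, h1, h2, h4, h5⟩ := main n (by omega)
    refine ⟨G, h1, ?_, h4, h5⟩
    have e : n - (2 * 2 + 3) + 2 = n - 5 := by omega
    have c3 : (3 : ℕ).choose 2 = 3 := by decide
    rw [e, c3]
    omega
  · obtain ⟨G, h1, h2, h4, h5⟩ := cex n hn2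
    have e : n - (2 * 2 + 4) + 2 = n - 6 := by omega
    have e' : n - (4 + 4) + 2 = n - 6 := by omega
    have c3 : (4 : ℕ).choose 2 = 6 := by decide
    refine ⟨G, h1, ?_, le_antisymm (h n hn1 G h1 ?_) h4, h5⟩
    · rw [e, c3]
      omega
    · rw [e']
      omega

end Pool.Agent.Lib.MP_1ed8ce_co.SS2
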