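import Pool.Agent.Lib.MP_1ed8ce_co.SS2.Chk

/-! What the finite check proves. -/

namespace Pool.Agent.Lib.MP_1ed8ce_co.SS2

open Finset
open scoped Classical

theorem allTo_iff {n : ℕ} {f : ℕ → Bool} : allTo n f = true ↔ ∀ i, i < n → f i = true := by
  induction n with
  | zero => simp [allTo]
  | succ n ih =>
    have e : allTo (n + 1) f = (f n && allTo n f) := rfl
    rw [e, Bool.and_eq_true, ih]
    constructor
    · rintro ⟨h1, h2⟩ i hi
      rcases Nat.lt_succ_iff_lt_or_eq.1 hi with h | h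
      · exact h2 i h
      · rw [h]; exact h1
    · intro h
      exact ⟨h n (by omega), fun i hi => h i (by omega)⟩

theorem sumTo_eq (n : ℕ) (f : ℕ → ℕ) : sumTo n f = ∑ i ∈ range n, f i := by
  induction n with
  | zero => simp [sumTo]
  | succ n ih =>
    have e : sumTo (n + 1) f = f n + sumTo n f := rfl
    rw [e, ih, sum_range_succ, add_comm]

theorem anyL_iff {α : Type} {L : List α} {f : α → Bool} :
    anyL L f = true ↔ ∃ a ∈ L, f a = true := by
  induction L with
  | nil => simp [anyL]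
  | cons a L ih =>
    have e : anyL (a :: L) f = (f a || anyL L f) := rfl
    rw [e, Bool.or_eq_true, ih]
    simp

theorem frc_eq (g : ℕ) (k : ℕ → Bool) : frc g k = k g := by
  cases g <;> rfl

theorem tb_eq (g i : ℕ) : tb g i = g.testBit i := by
  have e : tb g i = Nat.beq ((g >>> i) &&& 1) 1 := rfl
  rw [e, Nat.testBit, Nat.and_comm 1, Nat.and_one_is_mod]
  rcases Nat.mod_two_eq_zero_or_one (g >>> i) with h | h <;> rw [h] <;> rfl

theorem ad_eq (g i j : ℕ) : ad g i j = g.testBit (6 * i + j) := tb_eq _ _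

theorem eqb_iff {a b : Bool} : eqb a b = true ↔ a = b := by
  cases a <;> cases b <;> simp [eqb]

theorem pop_eq : ∀ x, x < 64 → pop x = ∑ j ∈ range 6, if x.testBit j = true then 1 else 0 := by
  decide +kernel

theorem dg_eq (g i : ℕ) : dg g i = ∑ j ∈ range 6, if ad g i j = true then 1 else 0 := by
  have e : dg g i = pop ((g >>> (6 * i)) &&& 63) := rfl
  rw [e, pop_eq _ (lt_of_le_of_lt Nat.and_le_right (by norm_num))]
  refine sum_congr rfl fun j hj => ?_
  have h63 : (63 : ℕ).testBit j = true := by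
    have := mem_range.1 hj
    interval_cases j <;> decide
  rw [Nat.testBit_and, h63, Bool.and_true, Nat.testBit_shiftRight, ad_eq]

theorem msk_bit (p : ℕ × ℕ) (k : ℕ) :
    (msk p).testBit k = true ↔ k = 6 * p.1 + p.2 ∨ k = 6 * p.2 + p.1 := by
  have e : msk p = 2 ^ (6 * p.1 + p.2) ||| 2 ^ (6 * p.2 + p.1) := rfl
  rw [e, Nat.testBit_or, Nat.testBit_two_pow, Nat.testBit_two_pow, Bool.or_eq_true,
    decide_eq_true_iff, decide_eq_true_iff]
  exact or_congr eq_comm eq_comm

theorem enumG_sound {lf : ℕ → Bool} (φ : ℕ × ℕ → Prop) (ps : List (ℕ × ℕ)) :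
    ∀ g, enumG lf ps g = true → ∃ g', lf g' = true ∧ ∀ k, g'.testBit k = true ↔
      g.testBit k = true ∨ ∃ p ∈ ps, φ p ∧ (msk p).testBit k = true := by
  induction ps with
  | nil => intro g h; exact ⟨g, h, by simp⟩
  | cons p ps ih =>
    intro g h
    have e : enumG lf (p :: ps) g =
        (enumG lf ps g && frc (g ||| msk p) (enumG lf ps)) := rfl
    rw [e, Bool.and_eq_true, frc_eq] at h
    by_cases hp : φ p
    · obtain ⟨g', h1, h2⟩ := ih _ h.2
      refine ⟨g', h1, fun k => ?_⟩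
      rw [h2, Nat.testBit_or, Bool.or_eq_true]
      simp only [List.mem_cons, exists_eq_or_imp, hp, true_and, or_assoc]
    · obtain ⟨g', h1, h2⟩ := ih _ h.1
      refine ⟨g', h1, fun k => ?_⟩
      rw [h2]
      simp only [List.mem_cons, exists_eq_or_imp, hp, false_and, false_or]

theorem upd_eq (t : ℕ → ℕ) (i x j : ℕ) : upd t i x j = if j = i then x else t j := by
  unfold upd
  by_cases h : j = i
  · simp [h]
  · have : Nat.beq j i = false := by
      rw [Bool.eq_false_iff]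
      exact fun h' => h (Nat.eq_of_beq_eq_true h')
    simp [h, this]

theorem dfs_sound {ok : (ℕ → ℕ) → ℕ → Bool} {lf : (ℕ → ℕ) → Bool} {l : ℕ} {τ : ℕ → ℕ}
    (hτ : ∀ i, τ i ≤ 4)
    (hok : ∀ t i, i < l → (∀ j, i ≤ j → j < l → t j = τ j) → ok t i = true) (n : ℕ) :
    ∀ t, n ≤ l → (∀ j, n ≤ j → j < l → t j = τ j) → dfs ok lf n t = true →
      ∃ t', (∀ j, j < l → t' j = τ j) ∧ lf t' = true := by
  induction n with
  | zero => intro t _ ht h; exact ⟨t, fun j hj => ht j (Nat.zero_le _) hj, h⟩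
  | succ n ih =>
    intro t hn ht h
    have e : dfs ok lf (n + 1) t =
        allTo 5 fun x => !(ok (upd t n x) n) || dfs ok lf n (upd t n x) := rfl
    rw [e, allTo_iff] at h
    have h1 := h (τ n) (by have := hτ n; omega)
    have h2 : ∀ j, n ≤ j → j < l → upd t n (τ n) j = τ j := by
      intro j hj hjl
      rw [upd_eq]
      split_ifs with h3
      · rw [h3]
      · exact ht j (by omega) hjl
    rw [hok _ n (by omega) h2] at h1
    exact ih _ (by omega) h2 (by simpa using h1)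

theorem c5s_ok : ∀ m ∈ c5s, m.2.1 < 6 ∧ m.2.2.1 < 6 ∧ m.2.2.2.1 < 6 ∧ m.2.2.2.2.1 < 6 ∧
    m.2.2.2.2.2 < 6 ∧ ad m.1 m.2.1 m.2.2.1 = true ∧ ad m.1 m.2.2.1 m.2.2.2.1 = true ∧
    ad m.1 m.2.2.2.1 m.2.2.2.2.1 = true ∧ ad m.1 m.2.2.2.2.1 m.2.2.2.2.2 = true ∧
    ad m.1 m.2.2.2.2.2 m.2.1 = true ∧ m.2.1 ≠ m.2.2.2.1 ∧ m.2.1 ≠ m.2.2.2.2.1 ∧
    m.2.2.1 ≠ m.2.2.2.2.1 ∧ m.2.2.1 ≠ m.2.2.2.2.2 ∧ m.2.2.2.1 ≠ m.2.2.2.2.2 := by
  decide +kernel

theorem ad_sub {g m i j : ℕ} (h : Nat.beq (Nat.land g m) m = true) (hm : ad m i j = true) :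
    ad g i j = true := by
  have e : g &&& m = m := Nat.eq_of_beq_eq_true h
  rw [ad_eq, ← e, Nat.testBit_and, Bool.and_eq_true] at hm
  rw [ad_eq]
  exact hm.1

theorem sound {fl : Bool} {B l : ℕ} {ps : List (ℕ × ℕ)} (hl : l ≤ 6) (hl0 : fl = true → 0 < l)
    (h : enumG (gchk fl B l) ps 0 = true)
    (hps : ∀ j, j < l → ∀ i, i < j → (i, j) ∈ ps) (hps2 : ∀ p ∈ ps, p.1 < 6 ∧ p.2 < 6)
    {R : ℕ → ℕ → Prop} (Rs : ∀ i j, R i j → R j i) (Ri : ∀ i, ¬ R i i)
    (Rl : ∀ i j, R i j → i < l ∧ j < l) {d : ℕ → ℕ}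
    (hd : ∀ i, i < l → d i = ∑ j ∈ range l, if R i j then 1 else 0)
    (hsort : ∀ i, i + 1 < l → d (i + 1) ≤ d i) {τ : ℕ → ℕ} (hτ : ∀ i, τ i ≤ 4)
    (hfl : fl = true → ∀ i, i < l → 2 ≤ d i ∧ (τ i = 0 → 4 ≤ d i) ∧ (τ i ≤ 2 → 3 ≤ d i))
    (hC5 : ∀ a b c x y, R a b → R b c → R c x → R x y → R y a → a ≠ c → a ≠ x → b ≠ x → b ≠ y →
      c ≠ y → False)
    (h3 : ∀ i j, R i j → τ i ≠ 0 → τ j ≠ 0 → tc (τ i) = tc (τ j) →
      τ i ≤ 2 ∧ τ j ≤ 2 ∧ ∀ a b, R i a → R a b → R b j → a = j ∨ b = i) :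
    ∃ C : ℕ → Bool, (∀ i, i < l → 2 < τ i → C i ≠ tc (τ i)) ∧
      ∑ i ∈ range l, ((if τ i ≠ 0 ∧ C i = tc (τ i) then 2 else 0) +
        ∑ j ∈ range l, if R i j ∧ C i = C j then 1 else 0) ≤ B := by
  obtain ⟨g, hg, hb⟩ := enumG_sound (fun p => R p.1 p.2) ps 0 h
  have hR : ∀ i j, i < 6 → j < 6 → (ad g i j = true ↔ R i j) := by
    intro i j hi hj
    rw [ad_eq, hb]
    simp only [Nat.zero_testBit, Bool.false_eq_true, false_or, msk_bit]
    constructor
    · rintro ⟨p, hp, h1, h2⟩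
      obtain ⟨p1, p2⟩ := hps2 p hp
      rcases h2 with h2 | h2
      · have e1 : i = p.1 := by omega
        have e2 : j = p.2 := by omega
        rw [e1, e2]; exact h1
      · have e1 : i = p.2 := by omega
        have e2 : j = p.1 := by omega
        rw [e1, e2]; exact Rs _ _ h1
    · intro hij
      obtain ⟨il, jl⟩ := Rl _ _ hij
      rcases lt_trichotomy i j with h1 | h1 | h1
      · exact ⟨(i, j), hps j jl i h1, hij, Or.inl rfl⟩
      · rw [h1] at hij; exact absurd hij (Ri j)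
      · exact ⟨(j, i), hps i il j h1, Rs _ _ hij, Or.inr rfl⟩
  have hdg : ∀ i, i < l → dg g i = d i := by
    intro i hi
    rw [dg_eq, hd i hi]
    symm
    refine (sum_congr rfl fun j hj => ?_).trans (sum_subset (range_subset_range.2 hl) ?_)
    · have := mem_range.1 hj
      simp only [hR i j (by omega) (by omega)]
    · intro j hj hjl
      rw [if_neg]
      rw [hR i j (by omega) (mem_range.1 hj)]
      exact fun hh => hjl (mem_range.2 (Rl _ _ hh).2)
  have g1 : (allTo (l - 1) fun i => Nat.ble (dg g (Nat.succ i)) (dg g i)) = true := by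
    rw [allTo_iff]
    intro i hi
    rw [Nat.ble_eq, hdg i (by omega), hdg (Nat.succ i) (by simp only [Nat.succ_eq_add_one]; omega)]
    exact hsort i (by omega)
  have g2 : (fl && Nat.ble (dg g (l - 1)) 1) = false := by
    rw [Bool.eq_false_iff]
    intro hh
    rw [Bool.and_eq_true, Nat.ble_eq] at hh
    have l0 := hl0 hh.1
    have := (hfl hh.1 (l - 1) (by omega)).1
    rw [hdg _ (by omega)] at hh
    omega
  have g3 : hasC5 g = false := by
    rw [Bool.eq_false_iff]
    intro hh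
    obtain ⟨m, hm, hh⟩ := anyL_iff.1 hh
    obtain ⟨a1, a2, a3, a4, a5, b1, b2, b3, b4, b5, c1, c2, c3, c4, c5⟩ := c5s_ok m hm
    exact hC5 _ _ _ _ _ ((hR _ _ a1 a2).1 (ad_sub hh b1)) ((hR _ _ a2 a3).1 (ad_sub hh b2))
      ((hR _ _ a3 a4).1 (ad_sub hh b3)) ((hR _ _ a4 a5).1 (ad_sub hh b4))
      ((hR _ _ a5 a1).1 (ad_sub hh b5)) c1 c2 c3 c4 c5
  unfold gchk at hg
  rw [g1, g2, g3] at hg
  have hg' : dfs (okv fl l g) (leaf B l g) l (fun _ => 0) = true := by simpa using hg
  have hok : ∀ t i, i < l → (∀ j, i ≤ j → j < l → t j = τ j) → okv fl l g t i = true := by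
    intro t i hi ht
    unfold okv
    rw [Bool.and_eq_true, ht i le_rfl hi, hdg i hi]
    constructor
    · cases fl with
      | false => rfl
      | true =>
        obtain ⟨-, f1, f2⟩ := hfl rfl i hi
        simp only [Bool.not_true, Bool.false_or, Bool.or_eq_true, Bool.and_eq_true, Nat.ble_eq]
        omega
    · rw [Bool.or_eq_true, allTo_iff]
      by_cases t0 : τ i = 0
      · left; rw [t0]; rfl
      right
      intro j hj
      simp only [Bool.or_eq_true, Bool.and_eq_true, Nat.ble_eq, Bool.not_eq_true',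
        Bool.eq_false_iff, ne_eq, eqb_iff, Nat.beq_eq, hR i j (by omega) (by omega)]
      by_cases ji : j ≤ i
      · tauto
      rw [ht j (by omega) hj]
      by_cases rij : R i j
      swap
      · tauto
      by_cases t1 : τ j = 0
      · tauto
      by_cases tt : tc (τ i) = tc (τ j)
      swap
      · tauto
      obtain ⟨k1, k2, k3⟩ := h3 i j rij t0 t1 tt
      refine Or.inr ⟨⟨k1, k2⟩, ?_⟩
      unfold noC4
      rw [allTo_iff]
      intro a ha
      simp only [Bool.or_eq_true, Bool.not_eq_true', Bool.eq_false_iff, ne_eq, Nat.beq_eq,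
        hR i a (by omega) (by omega), allTo_iff]
      by_cases ria : R i a
      swap
      · tauto
      by_cases aj : a = j
      · tauto
      right
      intro b hb'
      rw [hR a b (by omega) (by omega), hR b j (by omega) (by omega)]
      have := k3 a b ria
      tauto
  obtain ⟨t, ht, hlf⟩ := dfs_sound hτ hok l _ le_rfl (fun j h1 h2 => by omega) hg'
  unfold leaf at hlf
  rw [frc_eq] at hlf
  obtain ⟨x, -, hx⟩ := anyL_iff.1 hlf
  rw [frc_eq] at hx
  generalize Nat.xor _ x = K at hx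
  unfold good at hx
  rw [Bool.and_eq_true, allTo_iff, Nat.ble_eq] at hx
  refine ⟨tb K, fun i hi h2 => ?_, le_trans (le_of_eq ?_) hx.2⟩
  · have := hx.1 i hi
    simp only [Bool.or_eq_true, Nat.ble_eq, Bool.not_eq_true', Bool.eq_false_iff, ne_eq, eqb_iff,
      ht i hi] at this
    rcases this with h4 | h4
    · omega
    · exact h4
  · unfold cost
    rw [sumTo_eq]
    refine sum_congr rfl fun i hi => ?_
    have il := mem_range.1 hi
    rw [sumTo_eq, ht i il, Nat.add_eq]
    congr 1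
    · by_cases t0 : τ i = 0
      · simp [t0]
      · have : Nat.beq (τ i) 0 = false := by
          rw [Bool.eq_false_iff]
          exact fun h' => t0 (Nat.eq_of_beq_eq_true h')
        rw [this, cond_false]
        simp only [ne_eq, t0, not_false_eq_true, true_and, Bool.cond_eq_ite, eqb_iff]
    · refine sum_congr rfl fun j hj => ?_
      have jl := mem_range.1 hj
      simp only [Bool.cond_eq_ite, Bool.and_eq_true, eqb_iff, hR i j (by omega) (by omega)]

end Pool.Agent.Lib.MP_1ed8ce_co.SS2
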